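import Pool.Agent.EQC.Stmts

/-!
# KKP: the algorithm of Kalkowski, Karonski and Pfender by flips
-/

set_option autoImplicit false
set_option linter.unusedSectionVars false

open Finset

namespace Pool.Agent.EQC.H95

open scoped Classical

section gen

theorem cnt_eq {α : Type} [Fintype α] (q : α → Prop) [DecidablePred q] :
    cnt q = (univ.filter q).card := by
  unfold cnt
  congr

/-- chains of subsets -/
theorem chain {ι : Type} (B : Finset ι) : ∃ Bs : ℕ → Finset ι, (∀ j, Bs j ⊆ B) ∧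
    (∀ j, j ≤ B.card → (Bs j).card = j) ∧ ∀ j, Bs j ⊆ Bs (j + 1) := by
  induction B using Finset.induction_on with
  | empty =>
    refine ⟨fun _ => ∅, fun _ => subset_rfl, fun j hj => ?_, fun _ => subset_rfl⟩
    rw [card_empty] at hj ⊢
    omega
  | insert a B ha ih =>
    obtain ⟨Bs, h1, h2, h3⟩ := ih
    refine ⟨fun j => if j ≤ B.card then Bs j else insert a B, ?_, ?_, ?_⟩
    · intro j
      dsimp only
      split_ifs
      · exact (h1 j).trans (subset_insert _ _)
      · exact subset_rfl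
    · intro j hj
      rw [card_insert_of_notMem ha] at hj
      dsimp only
      split_ifs with h
      · exact h2 j h
      · rw [card_insert_of_notMem ha]
        omega
    · intro j
      dsimp only
      split_ifs with h h'
      · exact h3 j
      · exact (h1 j).trans (subset_insert _ _)
      · omega
      · exact subset_rfl

theorem grow {δ : ℤ} {g : ℕ → ℤ} {n : ℕ} (hg : ∀ j < n, g j + δ ≤ g (j + 1)) {a b : ℕ}
    (hab : a ≤ b) (hb : b ≤ n) : g a + δ * ((b : ℤ) - a) ≤ g b := by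
  induction b, hab using Nat.le_induction with
  | base => simp
  | succ b hab ih =>
    have h1 := ih (by omega)
    have h2 := hg b (by omega)
    have h3 : δ * (((b + 1 : ℕ) : ℤ) - a) = δ * ((b : ℤ) - a) + δ := by
      push_cast
      ring
    rw [h3]
    linarith

/-- a function which grows by at least `δ` has few values in an interval -/
theorem few {δ : ℤ} (hδ : 0 < δ) {g : ℕ → ℤ} {n : ℕ} (hg : ∀ j < n, g j + δ ≤ g (j + 1)) {k : ℕ}
    {a b : ℤ} (hab : b - a < k * δ) :
    ((range (n + 1)).filter (fun j => a ≤ g j ∧ g j ≤ b)).card ≤ k := by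
  set T := (range (n + 1)).filter (fun j => a ≤ g j ∧ g j ≤ b) with hT
  rcases T.eq_empty_or_nonempty with h | h
  · rw [h, card_empty]
    exact Nat.zero_le _
  · have hm := T.min'_mem h
    have hM := T.max'_mem h
    have hmM : T.min' h ≤ T.max' h := T.min'_le _ hM
    have hsub : T ⊆ Icc (T.min' h) (T.max' h) := fun x hx =>
      mem_Icc.2 ⟨T.min'_le x hx, T.le_max' x hx⟩
    have hcard := card_le_card hsub
    rw [Nat.card_Icc] at hcard
    obtain ⟨-, hm1, -⟩ := mem_filter.1 hm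
    obtain ⟨hM0, -, hM2⟩ := mem_filter.1 hM
    have hMn := mem_range.1 hM0
    have h1 := grow hg hmM (by omega)
    have h2 : δ * (((T.max' h : ℕ) : ℤ) - (T.min' h : ℕ)) < δ * k := by
      have : (k : ℤ) * δ = δ * k := mul_comm _ _
      linarith
    have h3 := lt_of_mul_lt_mul_left h2 hδ.le
    omega

theorem pigeon {V : Type} {c : ℕ} (hc : 1 ≤ c) (U : Finset V) (r : V → ℕ) :
    ∃ k, k < c ∧ (U.filter (fun u => r u = k)).card ≤ U.card / c := by
  have h1 : U.card < (range c).card * (U.card / c + 1) := by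
    rw [card_range]
    exact Nat.lt_mul_div_succ _ (by omega)
  obtain ⟨k, hk, h2⟩ := exists_card_fiber_lt_of_card_lt_mul h1 (f := r)
  exact ⟨k, mem_range.1 hk, by omega⟩

end gen

/-- the data -/
structure P (V ι : Type) [Fintype V] [Fintype ι] where
  c : ℕ
  C : V → V → Prop
  base : V → ℤ
  rk : V → ℕ
  r0 : V
  s0 : V
  fr : ι → V
  ty : ι → Bool
  ε : ι → V → ℤ
  hc : 1 ≤ c
  sym : ∀ u v, C u v → C v u
  irr : ∀ u, ¬ C u u
  inj : ∀ u v, rk u = rk v → u = v
  eps : ∀ i u, ε i u = -1 ∨ ε i u = 0 ∨ ε i u = 1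
  own : ∀ i, ε i (fr i) = 1
  r0_ne : ∀ i, ε i r0 ≠ 1
  r0_s0 : ∀ i, ε i r0 = -1 → fr i = s0
  late : ∀ u, u ≠ r0 → (∃ w, C u w) → cnt (fun i => rk u < rk (fr i) ∧ ε i u = 1) ≤ 2 ∧
      cnt (fun i => rk u < rk (fr i) ∧ ε i u = -1) ≤ 1
  rA : cnt (fun i => ty i = true ∧ ε i r0 = -1) ≤ 4 * c - 1
  rB : cnt (fun i => ty i = false ∧ ε i r0 = -1) ≤ 6
  cap : ∀ v, v ≠ r0 → (∃ w, C v w) → 4 * c - 1 ≤ cnt (fun i => fr i = v ∧ ty i = true) ∧
      (v ≠ s0 → 12 + 7 * (cnt (fun w => C v w) / c) ≤ cnt (fun i => fr i = v ∧ ty i = false)) ∧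
      6 + 7 * (cnt (fun w => C v w) / c) ≤ cnt (fun i => fr i = v ∧ ty i = false)

namespace P

variable {V ι : Type} [Fintype V] [Fintype ι] (p : P V ι)

/-- the value of `u` if the items of `F` are flipped -/
noncomputable def val (F : Finset ι) (u : V) : ℤ := p.base u + ∑ i ∈ F, wt p.c (p.ty i) * p.ε i u

/-- the items which are chosen not later than at `v` -/
noncomputable def res (F : Finset ι) (v : V) : Finset ι := F.filter (fun i => p.rk (p.fr i) ≤ p.rk v)

/-- the value of `v` at the time of `v` -/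
noncomputable def sig (F : Finset ι) (v : V) : ℤ := p.val (p.res F v) v

/-- the invariant -/
structure Inv (t : ℕ) (F : Finset ι) (r : V → ℕ) : Prop where
  lt : ∀ i ∈ F, p.rk (p.fr i) < t
  cell : ∀ v, p.rk v < t → v ≠ p.r0 → (∃ w, p.C v w) →
    r v < p.c ∧ ∃ q : ℤ, p.sig F v = 4 * p.c * q + (4 * r v + 1)
  far : ∀ v, p.rk v < t → v ≠ p.r0 → (∃ w, p.C v w) →
    ∀ u, u ≠ p.r0 → p.C u v → p.rk u < p.rk v → r u = r v →
      4 * (4 * (p.c : ℤ)) ≤ |p.sig F v - p.sig F u|
  r0f : ∀ v, p.rk v < t → v ≠ p.r0 → v ≠ p.s0 → p.C v p.r0 →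
    ¬ (p.base p.r0 - 9 * (4 * (p.c : ℤ)) - 1 ≤ p.sig F v ∧
      p.sig F v ≤ p.base p.r0 + 4 * (p.c : ℤ) + 1)
  s0f : p.rk p.s0 < t → p.s0 ≠ p.r0 → p.C p.s0 p.r0 →
    ¬ (-2 * (4 * (p.c : ℤ)) - 2 ≤ p.sig F p.s0 - p.val (p.res F p.s0) p.r0 ∧
      p.sig F p.s0 - p.val (p.res F p.s0) p.r0 ≤ 4 * (p.c : ℤ) + 1)

theorem val_union {F A : Finset ι} (h : Disjoint F A) (u : V) :
    p.val (F ∪ A) u = p.val F u + ∑ i ∈ A, wt p.c (p.ty i) * p.ε i u := by
  unfold val
  rw [sum_union h, add_assoc]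

theorem sumA {A : Finset ι} {v : V} (h : ∀ i ∈ A, p.fr i = v ∧ p.ty i = true) :
    ∑ i ∈ A, wt p.c (p.ty i) * p.ε i v = A.card := by
  have h1 : ∀ i ∈ A, wt p.c (p.ty i) * p.ε i v = 1 := by
    intro i hi
    obtain ⟨h2, h3⟩ := h i hi
    rw [h3, ← h2, p.own]
    rfl
  rw [sum_congr rfl h1, sum_const, nsmul_eq_mul, mul_one]

theorem sumB {B : Finset ι} {v : V} (h : ∀ i ∈ B, p.fr i = v ∧ p.ty i = false) :
    ∑ i ∈ B, wt p.c (p.ty i) * p.ε i v = 4 * p.c * B.card := by
  have h1 : ∀ i ∈ B, wt p.c (p.ty i) * p.ε i v = 4 * p.c := by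
    intro i hi
    obtain ⟨h2, h3⟩ := h i hi
    rw [h3, ← h2, p.own, mul_one]
    rfl
  rw [sum_congr rfl h1, sum_const, nsmul_eq_mul, mul_comm]

theorem res_union {F A : Finset ι} {t : ℕ} (hA : ∀ i ∈ A, p.rk (p.fr i) = t) {u : V}
    (hu : p.rk u < t) : p.res (F ∪ A) u = p.res F u := by
  unfold res
  rw [filter_union]
  have h1 : A.filter (fun i => p.rk (p.fr i) ≤ p.rk u) = ∅ := by
    rw [filter_eq_empty_iff]
    intro i hi h
    have := hA i hi
    omega
  rw [h1, union_empty]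

theorem res_all {F : Finset ι} {v : V} (h : ∀ i ∈ F, p.rk (p.fr i) ≤ p.rk v) : p.res F v = F := by
  unfold res
  exact filter_true_of_mem h

/-- the step at a vertex with conflicts -/
theorem step {t : ℕ} {F : Finset ι} {r : V → ℕ} (hI : p.Inv t F r) {v : V} (hv : p.rk v = t)
    (hr0 : v ≠ p.r0) (hC : ∃ w, p.C v w) : ∃ F' r', p.Inv (t + 1) F' r' := by
  have hc := p.hc
  obtain ⟨hcA, hcB1, hcB2⟩ := p.cap v hr0 hC
  set δ : ℤ := 4 * p.c with hδ
  have hδ4 : 4 ≤ δ := by omega
  set cur := p.val F v with hcur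
  -- the cell
  set U : Finset V := univ.filter (fun u => p.C u v ∧ u ≠ p.r0 ∧ p.rk u < t) with hU
  obtain ⟨k, hk, hS⟩ := pigeon hc U r
  set S : Finset V := U.filter (fun u => r u = k) with hSdef
  have hUc : U.card ≤ cnt (fun w => p.C v w) := by
    rw [cnt_eq]
    refine card_le_card fun u hu => ?_
    rw [hU, mem_filter] at hu
    exact mem_filter.2 ⟨mem_univ _, p.sym _ _ hu.2.1⟩
  have hSc : S.card ≤ cnt (fun w => p.C v w) / p.c := hS.trans (Nat.div_le_div_right hUc)
  -- the type A items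
  set i0 : ℕ := ((4 * (k : ℤ) + 1 - cur) % δ).toNat with hi0
  have hi01 : (i0 : ℤ) = (4 * (k : ℤ) + 1 - cur) % δ :=
    Int.toNat_of_nonneg (Int.emod_nonneg _ (by omega))
  have hi02 : (i0 : ℤ) < δ := by
    rw [hi01]
    exact Int.emod_lt_of_pos _ (by omega)
  obtain ⟨q0, hq0⟩ : ∃ q0 : ℤ, cur + i0 = δ * q0 + (4 * k + 1) := by
    refine ⟨-((4 * (k : ℤ) + 1 - cur) / δ), ?_⟩
    have := Int.emod_add_mul_ediv (4 * (k : ℤ) + 1 - cur) δ
    rw [hi01]
    linarith
  obtain ⟨A, hA1, hA2⟩ : ∃ A : Finset ι, A ⊆ univ.filter (fun i => p.fr i = v ∧ p.ty i = true) ∧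
      A.card = i0 := by
    apply exists_subset_card_eq
    have h1 : i0 ≤ 4 * p.c - 1 := by omega
    rw [cnt_eq] at hcA
    exact h1.trans hcA
  have hA3 : ∀ i ∈ A, p.fr i = v ∧ p.ty i = true := fun i hi => (mem_filter.1 (hA1 hi)).2
  -- the type B items
  set B : Finset ι := univ.filter (fun i => p.fr i = v ∧ p.ty i = false) with hB
  have hBc : B.card = cnt (fun i => p.fr i = v ∧ p.ty i = false) := by
    rw [cnt_eq]
  obtain ⟨Bs, hB1, hB2, hB3⟩ := chain B
  have hBs : ∀ j, ∀ i ∈ Bs j, p.fr i = v ∧ p.ty i = false := fun j i hi =>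
    (mem_filter.1 (hB1 j hi)).2
  set n := B.card with hn
  have hdFA : Disjoint F A := by
    rw [disjoint_left]
    intro i hi hi'
    have h1 := hI.lt i hi
    rw [(hA3 i hi').1, hv] at h1
    exact lt_irrefl _ h1
  have hdFB : ∀ j, Disjoint (F ∪ A) (Bs j) := by
    intro j
    rw [disjoint_left]
    intro i hi hi'
    obtain ⟨h2, h3⟩ := hBs j i hi'
    rcases mem_union.1 hi with h | h
    · have h1 := hI.lt i h
      rw [h2, hv] at h1
      exact lt_irrefl _ h1
    · rw [(hA3 i h).2] at h3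
      exact Bool.noConfusion h3
  set F' : ℕ → Finset ι := fun j => (F ∪ A) ∪ Bs j with hF'
  have hval : ∀ j, j ≤ n → p.val (F' j) v = cur + i0 + δ * j := by
    intro j hj
    rw [hF']
    simp only
    rw [p.val_union (hdFB j), p.val_union hdFA, p.sumA hA3, p.sumB (hBs j), hA2, hB2 j hj]
  -- the growth
  have hg1 : ∀ j < n, (fun j : ℕ => cur + i0 + δ * j) j + δ ≤ (fun j : ℕ => cur + i0 + δ * j) (j + 1) := by
    intro j _
    simp only
    push_cast
    linarith
  have hg2 : ∀ j < n, (fun j : ℕ => cur + i0 + δ * j - p.val (F' j) p.r0) j + δ ≤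
      (fun j : ℕ => cur + i0 + δ * j - p.val (F' j) p.r0) (j + 1) := by
    intro j _
    simp only
    have h1 : p.val (F' (j + 1)) p.r0 ≤ p.val (F' j) p.r0 := by
      rw [hF']
      simp only
      rw [p.val_union (hdFB j), p.val_union (hdFB (j + 1))]
      have h2 := sum_sdiff (f := fun i => wt p.c (p.ty i) * p.ε i p.r0) (hB3 j)
      have h3 : ∑ i ∈ Bs (j + 1) \ Bs j, wt p.c (p.ty i) * p.ε i p.r0 ≤ 0 := by
        refine sum_nonpos fun i hi => ?_
        have h4 : 0 ≤ wt p.c (p.ty i) := by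
          unfold wt
          split_ifs
          · norm_num
          · omega
        have h5 : p.ε i p.r0 ≤ 0 := by
          rcases p.eps i p.r0 with h | h | h
          · omega
          · omega
          · exact absurd h (p.r0_ne i)
        exact mul_nonpos_of_nonneg_of_nonpos h4 h5
      linarith
    push_cast
    linarith
  -- the forbidden numbers
  set T2 : V → Finset ℕ := fun u => (range (n + 1)).filter
    (fun j => p.sig F u - 3 * δ ≤ cur + i0 + δ * j ∧ cur + i0 + δ * j ≤ p.sig F u + 3 * δ) with hT2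
  have hT2c : ∀ u, (T2 u).card ≤ 7 := by
    intro u
    refine few (by omega) hg1 ?_
    push_cast
    linarith
  set T3 : Finset ℕ := (range (n + 1)).filter
    (fun j => p.base p.r0 - 9 * δ - 1 ≤ cur + i0 + δ * j ∧
      cur + i0 + δ * j ≤ p.base p.r0 + δ + 1) with hT3
  have hT3c : T3.card ≤ 11 := by
    refine few (by omega) hg1 ?_
    push_cast
    linarith
  set T4 : Finset ℕ := (range (n + 1)).filter
    (fun j => -2 * δ - 2 ≤ cur + i0 + δ * j - p.val (F' j) p.r0 ∧
      cur + i0 + δ * j - p.val (F' j) p.r0 ≤ δ + 1) with hT4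
  have hT4c : T4.card ≤ 4 := by
    refine few (by omega) hg2 ?_
    push_cast
    linarith
  set TT : Finset ℕ := S.biUnion T2 ∪ (if v = p.s0 then T4 else T3) with hTT
  have hTTc : TT.card < (range (n + 1)).card := by
    rw [card_range]
    have h1 : TT.card ≤ S.card * 7 + (if v = p.s0 then 4 else 11) := by
      refine (card_union_le _ _).trans (add_le_add ?_ ?_)
      · exact card_biUnion_le_card_mul _ _ _ fun u _ => hT2c u
      · split_ifs
        · exact hT4c
        · exact hT3c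
    by_cases h : v = p.s0
    · rw [if_pos h] at h1
      omega
    · rw [if_neg h] at h1
      have h2 := hcB1 h
      omega
  obtain ⟨j, hj1, hj2⟩ := exists_mem_notMem_of_card_lt_card hTTc
  have hjn : j ≤ n := by
    have := mem_range.1 hj1
    omega
  rw [hTT, mem_union, not_or] at hj2
  obtain ⟨hj3, hj4⟩ := hj2
  -- the new data
  have hnew : ∀ i ∈ A ∪ Bs j, p.rk (p.fr i) = t := by
    intro i hi
    rcases mem_union.1 hi with h | h
    · rw [(hA3 i h).1, hv]
    · rw [(hBs j i h).1, hv]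
  have hFj : F' j = F ∪ (A ∪ Bs j) := union_assoc _ _ _
  have hlt : ∀ i ∈ F' j, p.rk (p.fr i) < t + 1 := by
    intro i hi
    rw [hFj] at hi
    rcases mem_union.1 hi with h | h
    · have := hI.lt i h
      omega
    · have := hnew i h
      omega
  have hresv : p.res (F' j) v = F' j := p.res_all fun i hi => by
    have := hlt i hi
    omega
  have hsigv : p.sig (F' j) v = cur + i0 + δ * j := by
    unfold sig
    rw [hresv, hval j hjn]
  have hres : ∀ u, p.rk u < t → p.res (F' j) u = p.res F u := by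
    intro u hu
    rw [hFj]
    exact p.res_union hnew hu
  have hsig : ∀ u, p.rk u < t → p.sig (F' j) u = p.sig F u := by
    intro u hu
    unfold sig
    rw [hres u hu]
  have hne : ∀ u, p.rk u < t → u ≠ v := by
    rintro u hu rfl
    omega
  have hcase : ∀ u, p.rk u < t + 1 → p.rk u < t ∨ u = v := by
    intro u hu
    by_cases h : p.rk u = t
    · right
      exact p.inj _ _ (h.trans hv.symm)
    · left
      omega
  refine ⟨F' j, Function.update r v k, hlt, ?_, ?_, ?_, ?_⟩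
  · intro u hu hu0 hCu
    rcases hcase u hu with h | rfl
    · rw [Function.update_of_ne (hne u h), hsig u h]
      exact hI.cell u h hu0 hCu
    · rw [Function.update_self, hsigv]
      refine ⟨hk, q0 + j, ?_⟩
      rw [hq0]
      ring
  · intro u hu hu0 hCu w hw0 hwu hwr hrr
    have hwt : p.rk w < t := by omega
    rcases hcase u hu with h | rfl
    · rw [Function.update_of_ne (hne u h), Function.update_of_ne (hne w hwt)] at hrr
      rw [hsig u h, hsig w hwt]
      exact hI.far u h hu0 hCu w hw0 hwu hwr hrr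
    · rw [Function.update_self, Function.update_of_ne (hne w hwt)] at hrr
      rw [hsigv, hsig w hwt]
      by_contra hcon
      rw [not_le] at hcon
      apply hj3
      rw [mem_biUnion]
      have hwS : w ∈ S := by
        rw [hSdef, mem_filter, hU, mem_filter]
        exact ⟨⟨mem_univ _, hwu, hw0, hwt⟩, hrr⟩
      refine ⟨w, hwS, ?_⟩
      rw [hT2, mem_filter]
      refine ⟨hj1, ?_⟩
      obtain ⟨-, q, hq⟩ := hI.cell w hwt hw0 ⟨u, hwu⟩
      rw [hrr] at hq
      have h5 : cur + i0 + δ * j - p.sig F w = δ * (q0 + j - q) := by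
        rw [hq0, hq]
        ring
      rw [h5, abs_mul, abs_of_pos (show 0 < δ by omega), mul_comm] at hcon
      have h6 := lt_of_mul_lt_mul_right hcon (by omega)
      rw [abs_lt] at h6
      have h7 : -3 ≤ q0 + j - q := by omega
      have h8 : q0 + j - q ≤ 3 := by omega
      have h9 : δ * (-3) ≤ δ * (q0 + j - q) := mul_le_mul_of_nonneg_left h7 (by omega)
      have h10 : δ * (q0 + j - q) ≤ δ * 3 := mul_le_mul_of_nonneg_left h8 (by omega)
      constructor
      · linarith
      · linarith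
  · intro u hu hu0 hus hCu
    rcases hcase u hu with h | rfl
    · rw [hsig u h]
      exact hI.r0f u h hu0 hus hCu
    · rw [hsigv]
      rw [if_neg hus] at hj4
      intro hcon
      apply hj4
      rw [hT3, mem_filter]
      exact ⟨hj1, hcon⟩
  · intro hu hu0 hCu
    rcases hcase p.s0 hu with h | h
    · rw [hsig _ h, hres _ h]
      exact hI.s0f h hu0 hCu
    · rw [if_pos h.symm] at hj4
      rw [h, hresv, hsigv]
      intro hcon
      apply hj4
      rw [hT4, mem_filter]
      exact ⟨hj1, hcon⟩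

theorem ex (t : ℕ) : ∃ F r, p.Inv t F r := by
  induction t with
  | zero =>
    refine ⟨∅, fun _ => 0, ?_, ?_, ?_, ?_, ?_⟩
    · intro i hi
      exact absurd hi (notMem_empty i)
    · intro v hv
      exact absurd hv (Nat.not_lt_zero _)
    · intro v hv
      exact absurd hv (Nat.not_lt_zero _)
    · intro v hv
      exact absurd hv (Nat.not_lt_zero _)
    · intro hv
      exact absurd hv (Nat.not_lt_zero _)
  | succ t ih =>
    obtain ⟨F, r, hI⟩ := ih
    by_cases h : ∃ v, p.rk v = t ∧ v ≠ p.r0 ∧ ∃ w, p.C v w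
    · obtain ⟨v, hv, hr0, hC⟩ := h
      exact p.step hI hv hr0 hC
    · have key : ∀ v, p.rk v < t + 1 → v ≠ p.r0 → (∃ w, p.C v w) → p.rk v < t := by
        intro v hv hr0 hC
        by_contra hcon
        exact h ⟨v, by omega, hr0, hC⟩
      refine ⟨F, r, ?_, ?_, ?_, ?_, ?_⟩
      · intro i hi
        have := hI.lt i hi
        omega
      · intro v hv h0 hC
        exact hI.cell v (key v hv h0 hC) h0 hC
      · intro v hv h0 hC
        exact hI.far v (key v hv h0 hC) h0 hC
      · intro v hv h0 hs hC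
        exact hI.r0f v (key v hv h0 ⟨_, hC⟩) h0 hs hC
      · intro hv h0 hC
        exact hI.s0f (key _ hv h0 ⟨_, hC⟩) h0 hC

theorem split (L : Finset ι) (u : V) : ∑ i ∈ L, wt p.c (p.ty i) * p.ε i u =
    ∑ i ∈ L.filter (fun i => p.ty i = true), p.ε i u +
      4 * p.c * ∑ i ∈ L.filter (fun i => ¬ p.ty i = true), p.ε i u := by
  rw [← sum_filter_add_sum_filter_not L (fun i => p.ty i = true), mul_sum]
  congr 1
  · refine sum_congr rfl fun i hi => ?_
    rw [(mem_filter.1 hi).2]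
    unfold wt
    rw [if_pos rfl, one_mul]
  · refine sum_congr rfl fun i hi => ?_
    unfold wt
    rw [if_neg (mem_filter.1 hi).2]

theorem sum_eps (L : Finset ι) (u : V) : ∑ i ∈ L, p.ε i u =
    ((L.filter (fun i => p.ε i u = 1)).card : ℤ) - (L.filter (fun i => p.ε i u = -1)).card := by
  have h1 : ∀ i ∈ L, p.ε i u = (if p.ε i u = 1 then 1 else 0) - (if p.ε i u = -1 then 1 else 0) := by
    intro i _
    rcases p.eps i u with h | h | h
    · rw [h]
      norm_num
    · rw [h]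
      norm_num
    · rw [h]
      norm_num
  rw [sum_congr rfl h1, sum_sub_distrib, sum_boole, sum_boole]

theorem late_sum {u : V} (h0 : u ≠ p.r0) (hC : ∃ w, p.C u w) {L : Finset ι}
    (hL : ∀ i ∈ L, p.rk u < p.rk (p.fr i)) : -1 ≤ ∑ i ∈ L, p.ε i u ∧ ∑ i ∈ L, p.ε i u ≤ 2 := by
  obtain ⟨h1, h2⟩ := p.late u h0 hC
  rw [cnt_eq] at h1 h2
  have h3 : (L.filter (fun i => p.ε i u = 1)).card ≤ 2 := by
    refine (card_le_card fun i hi => ?_).trans h1
    obtain ⟨h4, h5⟩ := mem_filter.1 hi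
    exact mem_filter.2 ⟨mem_univ _, hL i h4, h5⟩
  have h4 : (L.filter (fun i => p.ε i u = -1)).card ≤ 1 := by
    refine (card_le_card fun i hi => ?_).trans h2
    obtain ⟨h4, h5⟩ := mem_filter.1 hi
    exact mem_filter.2 ⟨mem_univ _, hL i h4, h5⟩
  rw [p.sum_eps]
  constructor
  · omega
  · omega

/-- the final value of a vertex -/
theorem fin_val {u : V} (h0 : u ≠ p.r0) (hC : ∃ w, p.C u w) (F : Finset ι) :
    ∃ a b : ℤ, -1 ≤ a ∧ a ≤ 2 ∧ -1 ≤ b ∧ b ≤ 2 ∧ p.val F u = p.sig F u + a + 4 * p.c * b := by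
  set L : Finset ι := F.filter (fun i => ¬ p.rk (p.fr i) ≤ p.rk u) with hL
  have hL1 : ∀ i ∈ L, p.rk u < p.rk (p.fr i) := by
    intro i hi
    have := (mem_filter.1 hi).2
    omega
  obtain ⟨h1, h2⟩ := p.late_sum h0 hC (L := L.filter (fun i => p.ty i = true))
    (fun i hi => hL1 i (mem_filter.1 hi).1)
  obtain ⟨h3, h4⟩ := p.late_sum h0 hC (L := L.filter (fun i => ¬ p.ty i = true))
    (fun i hi => hL1 i (mem_filter.1 hi).1)
  refine ⟨_, _, h1, h2, h3, h4, ?_⟩
  unfold sig val res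
  rw [← sum_filter_add_sum_filter_not F (fun i => p.rk (p.fr i) ≤ p.rk u), ← hL, p.split L]
  ring

theorem eps_r0 (L : Finset ι) {m : ℕ} (hm : (L.filter (fun i => p.ε i p.r0 = -1)).card ≤ m) :
    -(m : ℤ) ≤ ∑ i ∈ L, p.ε i p.r0 ∧ ∑ i ∈ L, p.ε i p.r0 ≤ 0 := by
  rw [p.sum_eps]
  have h1 : (L.filter (fun i => p.ε i p.r0 = 1)) = ∅ := by
    rw [filter_eq_empty_iff]
    intro i _
    exact p.r0_ne i
  rw [h1, card_empty]
  constructor
  · push_cast
    omega
  · push_cast
    omega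

/-- the final value of `r0` -/
theorem fin_r0 (F : Finset ι) : p.base p.r0 - 7 * (4 * (p.c : ℤ)) + 1 ≤ p.val F p.r0 ∧
    p.val F p.r0 ≤ p.base p.r0 := by
  have hA := p.rA
  have hB := p.rB
  have hc := p.hc
  rw [cnt_eq] at hA hB
  have h1 : ((F.filter (fun i => p.ty i = true)).filter (fun i => p.ε i p.r0 = -1)).card ≤
      4 * p.c - 1 := by
    refine (card_le_card fun i hi => ?_).trans hA
    obtain ⟨h4, h5⟩ := mem_filter.1 hi
    exact mem_filter.2 ⟨mem_univ _, (mem_filter.1 h4).2, h5⟩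
  have h2 : ((F.filter (fun i => ¬ p.ty i = true)).filter (fun i => p.ε i p.r0 = -1)).card ≤ 6 := by
    refine (card_le_card fun i hi => ?_).trans hB
    obtain ⟨h4, h5⟩ := mem_filter.1 hi
    exact mem_filter.2 ⟨mem_univ _, Bool.eq_false_of_not_eq_true (mem_filter.1 h4).2, h5⟩
  obtain ⟨h3, h4⟩ := p.eps_r0 _ h1
  obtain ⟨h5, h6⟩ := p.eps_r0 _ h2
  unfold val
  rw [p.split F]
  have h7 : 4 * (p.c : ℤ) * (-((6 : ℕ) : ℤ)) ≤
      4 * p.c * ∑ i ∈ F.filter (fun i => ¬ p.ty i = true), p.ε i p.r0 :=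
    mul_le_mul_of_nonneg_left h5 (by omega)
  have h8 : 4 * (p.c : ℤ) * ∑ i ∈ F.filter (fun i => ¬ p.ty i = true), p.ε i p.r0 ≤
      4 * p.c * 0 := mul_le_mul_of_nonneg_left h6 (by omega)
  have h9 : ((4 * p.c - 1 : ℕ) : ℤ) = 4 * p.c - 1 := by
    rw [Nat.cast_sub (by omega)]
    push_cast
    ring
  rw [h9] at h3
  push_cast at h7
  constructor
  · linarith
  · linarith

/-- nothing changes at `r0` after `s0` -/
theorem fin_s0 (F : Finset ι) : p.val (p.res F p.s0) p.r0 = p.val F p.r0 := by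
  unfold val res
  rw [← sum_filter_add_sum_filter_not F (fun i => p.rk (p.fr i) ≤ p.rk p.s0)]
  have h : ∑ i ∈ F.filter (fun i => ¬ p.rk (p.fr i) ≤ p.rk p.s0), wt p.c (p.ty i) * p.ε i p.r0 =
      0 := by
    refine sum_eq_zero fun i hi => ?_
    rcases p.eps i p.r0 with h | h | h
    · have h1 := p.r0_s0 i h
      have h2 := (mem_filter.1 hi).2
      rw [h1] at h2
      exact absurd le_rfl h2
    · rw [h, mul_zero]
    · exact absurd h (p.r0_ne i)
  rw [h, add_zero]

theorem main_ne {t : ℕ} {F : Finset ι} {r : V → ℕ} (hI : p.Inv t F r) (ht : ∀ v, p.rk v < t)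
    {u v : V} (hC : p.C u v) (hu : u ≠ p.r0) (hv : v ≠ p.r0) (huv : p.rk u < p.rk v) :
    p.val F u ≠ p.val F v := by
  intro hcon
  have hc := p.hc
  obtain ⟨a, b, ha1, ha2, hb1, hb2, h1⟩ := p.fin_val hu ⟨v, hC⟩ F
  obtain ⟨a', b', ha1', ha2', hb1', hb2', h2⟩ := p.fin_val hv ⟨u, p.sym _ _ hC⟩ F
  obtain ⟨hru, q, hq⟩ := hI.cell u (ht u) hu ⟨v, hC⟩
  obtain ⟨hrv, q', hq'⟩ := hI.cell v (ht v) hv ⟨u, p.sym _ _ hC⟩
  by_cases hr : r u = r v
  · have h3 := hI.far v (ht v) hv ⟨u, p.sym _ _ hC⟩ u hu hC huv hr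
    have h4 : p.sig F v - p.sig F u = (a - a') + 4 * p.c * (b - b') := by
      have : 4 * (p.c : ℤ) * (b - b') = 4 * p.c * b - 4 * p.c * b' := by ring
      linarith
    have h5 : |p.sig F v - p.sig F u| ≤ 3 + 4 * p.c * 3 := by
      rw [h4]
      refine (abs_add_le _ _).trans (add_le_add ?_ ?_)
      · rw [abs_le]
        constructor
        · linarith
        · linarith
      · rw [abs_mul, abs_of_nonneg (show (0 : ℤ) ≤ 4 * p.c by omega)]
        refine mul_le_mul_of_nonneg_left ?_ (by omega)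
        rw [abs_le]
        constructor
        · linarith
        · linarith
    omega
  · rw [hq] at h1
    rw [hq'] at h2
    have h3 : 4 * (p.c : ℤ) * (q + b - q' - b') = 4 * ((r v : ℤ) - r u) + (a' - a) := by
      have : 4 * (p.c : ℤ) * (q + b - q' - b') =
        (4 * p.c * q + 4 * p.c * b) - (4 * p.c * q' + 4 * p.c * b') := by ring
      linarith
    set K := q + b - q' - b' with hK
    rcases lt_trichotomy K 0 with h | h | h
    · have h4 : 4 * (p.c : ℤ) * K ≤ 4 * p.c * (-1) := mul_le_mul_of_nonneg_left (by omega) (by omega)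
      omega
    · rw [h, mul_zero] at h3
      omega
    · have h4 : 4 * (p.c : ℤ) * 1 ≤ 4 * p.c * K := mul_le_mul_of_nonneg_left (by omega) (by omega)
      omega

theorem main_r0 {t : ℕ} {F : Finset ι} {r : V → ℕ} (hI : p.Inv t F r) (ht : ∀ v, p.rk v < t)
    {v : V} (hC : p.C v p.r0) (hv : v ≠ p.r0) : p.val F v ≠ p.val F p.r0 := by
  intro hcon
  have hc := p.hc
  obtain ⟨a, b, ha1, ha2, hb1, hb2, h1⟩ := p.fin_val hv ⟨_, hC⟩ F
  have hb3 : 4 * (p.c : ℤ) * (-1) ≤ 4 * p.c * b := mul_le_mul_of_nonneg_left hb1 (by omega)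
  have hb4 : 4 * (p.c : ℤ) * b ≤ 4 * p.c * 2 := mul_le_mul_of_nonneg_left hb2 (by omega)
  by_cases hs : v = p.s0
  · subst hs
    apply hI.s0f (ht _) hv hC
    rw [p.fin_s0]
    constructor
    · linarith
    · linarith
  · apply hI.r0f v (ht v) hv hs hC
    obtain ⟨h2, h3⟩ := p.fin_r0 F
    constructor
    · linarith
    · linarith

end P

theorem kkp : KkpStmt := by
  intro V _ ι _ c C base rk r0 s0 fr ty ε hc hsym hirr hinj _ heps hown _ hne hs0 hlate hA hB hcap
  let p : P V ι := ⟨c, C, base, rk, r0, s0, fr, ty, ε, hc, hsym, hirr, hinj, heps, hown, hne, hs0,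
    hlate, hA, hB, hcap⟩
  set t := univ.sup rk + 1 with ht
  have ht1 : ∀ v, p.rk v < t := by
    intro v
    have h1 : rk v ≤ univ.sup rk := le_sup (f := rk) (mem_univ v)
    have h2 : p.rk v = rk v := rfl
    omega
  obtain ⟨F, r, hI⟩ := p.ex t
  refine ⟨F, ?_⟩
  intro u v hC
  have key : p.val F u ≠ p.val F v := by
    have huv : u ≠ v := by
      rintro rfl
      exact hirr _ hC
    by_cases hu : u = p.r0
    · subst hu
      exact (p.main_r0 hI ht1 (hsym _ _ hC) huv.symm).symm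
    · by_cases hv : v = p.r0
      · subst hv
        exact p.main_r0 hI ht1 hC huv
      · rcases lt_trichotomy (p.rk u) (p.rk v) with h | h | h
        · exact p.main_ne hI ht1 hC hu hv h
        · exact absurd (hinj _ _ h) huv
        · exact (p.main_ne hI ht1 (hsym _ _ hC) hv hu h).symm
  exact key

end Pool.Agent.EQC.H95
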