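import Pool.Agent.EQC.Stmts

/-!
# SCO: strong colouring for bounded degree
-/

set_option autoImplicit false

namespace Pool.Agent.EQC.H95

theorem sco (hSTC : StcStmt) (hEDM : EdmStmt) : ScoStmt := by
  intro Δ Ω β _ blk R hsym hirr hdeg hblk
  obtain ⟨m, hm, hR⟩ := hEDM Δ Ω R hsym hirr hdeg
  obtain ⟨κ, h1, h2⟩ := hSTC (2 * Δ) Ω β blk m hm hblk
  refine ⟨κ, h1, ?_⟩
  intro x y hxy
  obtain ⟨i, hi⟩ := hR x y hxy
  have h3 : m i x ≠ x := by
    intro h
    rw [hi] at h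
    subst h
    exact hirr _ hxy
  have h4 := h2 i x h3
  rw [hi] at h4
  exact h4.symm

end Pool.Agent.EQC.H95
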